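import Pool.Agent.Results.MP_067019_co.ThresholdNotAttained

/-!
# A connected non-bipartite graph whose circular mixing threshold is smaller than its
mixing threshold

Let `H` be the cube, drawn as `K_{4,4}` minus a perfect matching, and let `G` be obtained from `H`
by adding one new vertex adjacent to both ends of one edge of `H`.  Then the circular mixing
threshold of `G` is `4` and the mixing threshold of `G` is `5`.
-/

namespace Pool.Agent.Results.MP_fe6464_co.StrictInequality

open Pool.Agent.R57.CircMix Relation

variable {V : Type}

/-- `f` is a proper colouring of `G` with colours `0, ..., k-1`. -/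
def Proper (G : SimpleGraph V) (k : ℕ) (f : V → ℕ) : Prop :=
  (∀ v, f v < k) ∧ ∀ u v, G.Adj u v → f u ≠ f v

/-- `f` and `g` are proper `k`-colourings which differ in the colour of exactly one vertex. -/
def ProperStep (G : SimpleGraph V) (k : ℕ) (f g : V → ℕ) : Prop :=
  Proper G k f ∧ Proper G k g ∧ ∃ v, f v ≠ g v ∧ ∀ w, w ≠ v → f w = g w

/-- `G` is `k`-mixing. -/
def KMixing (G : SimpleGraph V) (k : ℕ) : Prop :=
  ∀ f g, Proper G k f → Proper G k g → ReflTransGen (ProperStep G k) f g

/-- The mixing threshold: the least `l` such that `G` is `k`-mixing for all `k ≥ l`. -/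
noncomputable def mixingThreshold (G : SimpleGraph V) : ℕ :=
  sInf {l : ℕ | ∀ k, l ≤ k → KMixing G k}

theorem proper_iff {G : SimpleGraph V} {k : ℕ} {f : V → ℕ} : Proper G k f ↔ IsCol G k 1 f := by
  unfold Proper IsCol
  constructor
  · rintro ⟨h1, h2⟩
    refine ⟨h1, fun u v huv => ?_⟩
    have a1 := h1 u
    have a2 := h1 v
    have a3 := h2 u v huv
    constructor
    · have : (f u : ℤ) - f v ≠ 0 := by omega
      have := abs_pos.mpr this
      push_cast
      omega
    · rw [abs_le]
      push_cast
      omega
  · rintro ⟨h1, h2⟩
    refine ⟨h1, fun u v huv h => ?_⟩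
    have := (h2 u v huv).1
    rw [h] at this
    simp at this

theorem kmixing_iff {G : SimpleGraph V} {k : ℕ} : KMixing G k ↔ Mixing G k 1 := by
  have hs : ProperStep G k = Step G k 1 := by
    funext f g
    apply propext
    unfold ProperStep Step
    rw [proper_iff, proper_iff]
  unfold KMixing Mixing
  rw [hs]
  simp only [proper_iff]

/-- The graph: the cube with one more vertex adjacent to the two ends of one edge. -/
def G : SimpleGraph (Option (Bool × Fin 4)) := addVertex cube (false, 0) (true, 1)

theorem threshold : mixingThreshold G = 5 := by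
  unfold mixingThreshold
  have h5 : (5 : ℕ) ∈ {l : ℕ | ∀ k, l ≤ k → KMixing G k} := by
    intro k hk
    rw [kmixing_iff]
    exact MP_067019_co.ThresholdNotAttained.mixing one_pos (by omega)
  apply le_antisymm
  · exact Nat.sInf_le h5
  · apply le_csInf ⟨5, h5⟩
    intro l hl
    by_contra h
    push Not at h
    have h4 : KMixing G 4 := hl 4 (by omega)
    rw [kmixing_iff] at h4
    exact MP_067019_co.ThresholdNotAttained.not_mixing h4

/-- The connected, non-bipartite graph `G` on nine vertices has circular mixing threshold `4` and
mixing threshold `5`. -/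
theorem result : G.Connected ∧ ¬ G.IsBipartite ∧ mc G = 4 ∧ mixingThreshold G = 5 ∧
    mc G < (mixingThreshold G : ℝ) := by
  have h1 : mc G = 4 := MP_067019_co.ThresholdNotAttained.mc_eq
  refine ⟨MP_067019_co.ThresholdNotAttained.connected,
    MP_067019_co.ThresholdNotAttained.not_two_colorable, h1, threshold, ?_⟩
  rw [h1, threshold]
  norm_num

end Pool.Agent.Results.MP_fe6464_co.StrictInequality
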